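import Mathlib
import Pool.Agent.MalcevCoh.Counter

/-!
# Malcev coherence is not preserved by free products with free monoids

This answers Q2 negatively: the monoid `M = {a, b, d}* × ℕ` (a direct product of a free monoid of
rank three and a free monoid of rank one) is Malcev coherent, but for no nontrivial free monoid
`F` is the monoid free product `F ∗ M` Malcev coherent, although `F ∗ M` embeds in a group.
-/

namespace Pool.Agent.Results.MP_e5a626_al.NotClosedUnderFreeProd

open Pool.Agent.MalcevCoh

/-- The monoid `FreeMonoid (Fin 3) × Multiplicative ℕ` is Malcev coherent. For every nonempty `X`,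
its monoid free product with the free monoid on `X` embeds in a group but is not Malcev
coherent. -/
theorem result : MalcevCoherent (FreeMonoid (Fin 3) × Multiplicative ℕ) ∧
    ∀ (X : Type*) [Nonempty X],
      GroupEmbeddable (Monoid.Coprod (FreeMonoid X) (FreeMonoid (Fin 3) × Multiplicative ℕ)) ∧
      ¬ MalcevCoherent (Monoid.Coprod (FreeMonoid X) (FreeMonoid (Fin 3) × Multiplicative ℕ)) := by
  refine ⟨malcevCoherent_prod (Fin 3), fun X _ => ?_⟩
  obtain ⟨h1, s, hs, h2⟩ := coprod_not_coherent X
  exact ⟨h1, fun h => h2 (h.2 s hs)⟩

end Pool.Agent.Results.MP_e5a626_al.NotClosedUnderFreeProd
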