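import Mathlib
import Pool.Agent.MalcevCoh.Criterion

/-!
# Malcev coherence of the free product of a free monoid and a virtually nilpotent group

This answers Q1 positively in all three cases (a) virtually abelian, (b) nilpotent,
(c) virtually nilpotent, since (a) and (b) are special cases of (c).
-/

namespace Pool.Agent.Results.MP_e5a626_al.VirtuallyNilpotent

open Pool.Agent.MalcevCoh

/-- For every free monoid `FreeMonoid X` and every virtually nilpotent group `G`, the monoid free
product `FreeMonoid X ∗ G` is Malcev coherent. -/
theorem result : ∀ (X : Type*) (G : Type*) [Group G], Group.IsVirtuallyNilpotent G →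
    MalcevCoherent (Monoid.Coprod (FreeMonoid X) G) :=
  fun X G _ hG => malcevCoherent_coprod X G hG

end Pool.Agent.Results.MP_e5a626_al.VirtuallyNilpotent
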